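import Mathlib

/-!
# MP_c624c9_nt: the first Pellian iterate need not be the first Pellian convergent (`k = 375`)

For `k = 375` the convergents of `√375` are `19, 39/2, 58/3, 155/8, 213/11, ...`. The first one with
`R(k, d) ∈ ℤ` is `d = 155/8` (with `R = -3844`), the first Pellian convergent is `15124/781`, but the
first Pellian fraction in the orbit is the fifth iterate `457470751/23623688`.
-/

set_option autoImplicit false

namespace Pool.Agent.Results.MP_c624c9_nt.Disproof375

/-- The `i`-th convergent (`i = 0, 1, 2, ...`) of the simple continued fraction of `√k`. -/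
noncomputable def conv (k : ℕ) (i : ℕ) : ℚ := (Real.sqrt k).convergent i

/-- `R(k, d) = 4 d² / (k - d²)`. -/
def R (k : ℕ) (d : ℚ) : ℚ := 4 * d ^ 2 / (k - d ^ 2)

/-- A positive rational `p/q` in lowest terms is Pellian if `p² - k q² = ± 1`. -/
def Pellian (k : ℕ) (r : ℚ) : Prop :=
  0 < r ∧ (r.num ^ 2 - k * (r.den : ℤ) ^ 2 = 1 ∨ r.num ^ 2 - k * (r.den : ℤ) ^ 2 = -1)

/-- The map `f_d(x) = (d x + k)/(x + d)`. -/
def f (k : ℕ) (d x : ℚ) : ℚ := (d * x + k) / (x + d)

/-- `orbit k d n = f_d^n(∞)` for `n ≥ 1`: since `f_d(∞) = d`, it is `f_d^(n-1)(d)`. -/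
def orbit (k : ℕ) (d : ℚ) (n : ℕ) : ℚ := (f k d)^[n - 1] d

lemma step {ξ ξ' : ℝ} (a : ℤ) (h1 : (a : ℝ) ≤ ξ) (h2 : ξ < a + 1) (h3 : (ξ - a) * ξ' = 1) (n : ℕ) :
    ξ.convergent (n + 1) = a + (ξ'.convergent n)⁻¹ := by
  have hf : ⌊ξ⌋ = a := Int.floor_eq_iff.2 ⟨h1, h2⟩
  rw [Real.convergent_succ, hf]
  have : (Int.fract ξ)⁻¹ = ξ' := by
    rw [Int.fract, hf]
    exact inv_eq_of_mul_eq_one_right h3
  rw [this]

lemma step0 {ξ : ℝ} (a : ℤ) (h1 : (a : ℝ) ≤ ξ) (h2 : ξ < a + 1) : ξ.convergent 0 = a := by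
  have hf : ⌊ξ⌋ = a := Int.floor_eq_iff.2 ⟨h1, h2⟩
  rw [Real.convergent_zero, hf]

lemma num_den {p q : ℕ} (hq : 0 < q) (h : Nat.Coprime p q) :
    ((p : ℚ) / q).num = p ∧ (((p : ℚ) / q).den : ℤ) = q := by
  constructor
  · have := Rat.num_div_eq_of_coprime (a := (p : ℤ)) (b := (q : ℤ)) (by exact_mod_cast hq) (by simpa using h)
    simpa using this
  · have := Rat.den_div_eq_of_coprime (a := (p : ℤ)) (b := (q : ℤ)) (by exact_mod_cast hq) (by simpa using h)
    simpa using this

lemma pellian_iff {p q : ℕ} (hp : 0 < p) (hq : 0 < q) (h : Nat.Coprime p q) (k : ℕ) :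
    Pellian k ((p : ℚ) / q) ↔ ((p : ℤ) ^ 2 - k * (q : ℤ) ^ 2 = 1 ∨ (p : ℤ) ^ 2 - k * (q : ℤ) ^ 2 = -1) := by
  have hpos : (0 : ℚ) < (p : ℚ) / q := by positivity
  rw [Pellian, (num_den hq h).1, (num_den hq h).2]
  simp [hpos]

noncomputable abbrev s : ℝ := Real.sqrt (375 : ℕ)

lemma s_sq : s * s = 375 := by
  rw [s, Real.mul_self_sqrt (by positivity)]; norm_num

lemma s_lo : (19.36 : ℝ) < s := by
  rw [s]; apply Real.lt_sqrt_of_sq_lt; norm_num

lemma s_hi : s < (19.365 : ℝ) := by
  rw [s]; rw [Real.sqrt_lt' (by norm_num)]; norm_num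

lemma c0 (n : ℕ) : s.convergent (n + 1) = 19 + (((s + 19) / 14).convergent n)⁻¹ := by
  have := step (ξ := s) (ξ' := (s + 19) / 14) 19 (by have := s_lo; push_cast; linarith)
    (by have := s_hi; push_cast; linarith) (by push_cast; linear_combination (1 / 14) * s_sq) n
  simpa using this

lemma c1 (n : ℕ) : ((s + 19) / 14).convergent (n + 1) = 2 + (((s + 9) / 21).convergent n)⁻¹ := by
  have := step (ξ := (s + 19) / 14) (ξ' := (s + 9) / 21) 2 (by have := s_lo; push_cast; linarith)
    (by have := s_hi; push_cast; linarith) (by push_cast; linear_combination (1 / 294) * s_sq) n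
  simpa using this

lemma c2 (n : ℕ) : ((s + 9) / 21).convergent (n + 1) = 1 + (((s + 12) / 11).convergent n)⁻¹ := by
  have := step (ξ := (s + 9) / 21) (ξ' := (s + 12) / 11) 1 (by have := s_lo; push_cast; linarith)
    (by have := s_hi; push_cast; linarith) (by push_cast; linear_combination (1 / 231) * s_sq) n
  simpa using this

lemma c3 (n : ℕ) : ((s + 12) / 11).convergent (n + 1) = 2 + (((s + 10) / 25).convergent n)⁻¹ := by
  have := step (ξ := (s + 12) / 11) (ξ' := (s + 10) / 25) 2 (by have := s_lo; push_cast; linarith)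
    (by have := s_hi; push_cast; linarith) (by push_cast; linear_combination (1 / 275) * s_sq) n
  simpa using this

lemma c4 (n : ℕ) : ((s + 10) / 25).convergent (n + 1) = 1 + (((s + 15) / 6).convergent n)⁻¹ := by
  have := step (ξ := (s + 10) / 25) (ξ' := (s + 15) / 6) 1 (by have := s_lo; push_cast; linarith)
    (by have := s_hi; push_cast; linarith) (by push_cast; linear_combination (1 / 150) * s_sq) n
  simpa using this

lemma c5 (n : ℕ) : ((s + 15) / 6).convergent (n + 1) = 5 + (((s + 15) / 25).convergent n)⁻¹ := by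
  have := step (ξ := (s + 15) / 6) (ξ' := (s + 15) / 25) 5 (by have := s_lo; push_cast; linarith)
    (by have := s_hi; push_cast; linarith) (by push_cast; linear_combination (1 / 150) * s_sq) n
  simpa using this

lemma c6 (n : ℕ) : ((s + 15) / 25).convergent (n + 1) = 1 + (((s + 10) / 11).convergent n)⁻¹ := by
  have := step (ξ := (s + 15) / 25) (ξ' := (s + 10) / 11) 1 (by have := s_lo; push_cast; linarith)
    (by have := s_hi; push_cast; linarith) (by push_cast; linear_combination (1 / 275) * s_sq) n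
  simpa using this

lemma c7 (n : ℕ) : ((s + 10) / 11).convergent (n + 1) = 2 + (((s + 12) / 21).convergent n)⁻¹ := by
  have := step (ξ := (s + 10) / 11) (ξ' := (s + 12) / 21) 2 (by have := s_lo; push_cast; linarith)
    (by have := s_hi; push_cast; linarith) (by push_cast; linear_combination (1 / 231) * s_sq) n
  simpa using this

lemma c8 (n : ℕ) : ((s + 12) / 21).convergent (n + 1) = 1 + (((s + 9) / 14).convergent n)⁻¹ := by
  have := step (ξ := (s + 12) / 21) (ξ' := (s + 9) / 14) 1 (by have := s_lo; push_cast; linarith)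
    (by have := s_hi; push_cast; linarith) (by push_cast; linear_combination (1 / 294) * s_sq) n
  simpa using this

lemma z0 : s.convergent 0 = 19 := by
  simpa using step0 (ξ := s) 19 (by have := s_lo; push_cast; linarith) (by have := s_hi; push_cast; linarith)
lemma z1 : ((s + 19) / 14).convergent 0 = 2 := by
  simpa using step0 (ξ := (s + 19) / 14) 2 (by have := s_lo; push_cast; linarith) (by have := s_hi; push_cast; linarith)
lemma z2 : ((s + 9) / 21).convergent 0 = 1 := by
  simpa using step0 (ξ := (s + 9) / 21) 1 (by have := s_lo; push_cast; linarith) (by have := s_hi; push_cast; linarith)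
lemma z3 : ((s + 12) / 11).convergent 0 = 2 := by
  simpa using step0 (ξ := (s + 12) / 11) 2 (by have := s_lo; push_cast; linarith) (by have := s_hi; push_cast; linarith)
lemma z4 : ((s + 10) / 25).convergent 0 = 1 := by
  simpa using step0 (ξ := (s + 10) / 25) 1 (by have := s_lo; push_cast; linarith) (by have := s_hi; push_cast; linarith)
lemma z5 : ((s + 15) / 6).convergent 0 = 5 := by
  simpa using step0 (ξ := (s + 15) / 6) 5 (by have := s_lo; push_cast; linarith) (by have := s_hi; push_cast; linarith)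
lemma z6 : ((s + 15) / 25).convergent 0 = 1 := by
  simpa using step0 (ξ := (s + 15) / 25) 1 (by have := s_lo; push_cast; linarith) (by have := s_hi; push_cast; linarith)
lemma z7 : ((s + 10) / 11).convergent 0 = 2 := by
  simpa using step0 (ξ := (s + 10) / 11) 2 (by have := s_lo; push_cast; linarith) (by have := s_hi; push_cast; linarith)
lemma z8 : ((s + 12) / 21).convergent 0 = 1 := by
  simpa using step0 (ξ := (s + 12) / 21) 1 (by have := s_lo; push_cast; linarith) (by have := s_hi; push_cast; linarith)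
lemma z9 : ((s + 9) / 14).convergent 0 = 2 := by
  simpa using step0 (ξ := (s + 9) / 14) 2 (by have := s_lo; push_cast; linarith) (by have := s_hi; push_cast; linarith)

lemma v0 : conv 375 0 = ((19 : ℕ) : ℚ) / ((1 : ℕ) : ℚ) := by
  rw [conv, z0]; norm_num
lemma v1 : conv 375 1 = ((39 : ℕ) : ℚ) / ((2 : ℕ) : ℚ) := by
  rw [conv, c0, z1]; norm_num
lemma v2 : conv 375 2 = ((58 : ℕ) : ℚ) / ((3 : ℕ) : ℚ) := by
  rw [conv, c0, c1, z2]; norm_num
lemma v3 : conv 375 3 = ((155 : ℕ) : ℚ) / ((8 : ℕ) : ℚ) := by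
  rw [conv, c0, c1, c2, z3]; norm_num
lemma v4 : conv 375 4 = ((213 : ℕ) : ℚ) / ((11 : ℕ) : ℚ) := by
  rw [conv, c0, c1, c2, c3, z4]; norm_num
lemma v5 : conv 375 5 = ((1220 : ℕ) : ℚ) / ((63 : ℕ) : ℚ) := by
  rw [conv, c0, c1, c2, c3, c4, z5]; norm_num
lemma v6 : conv 375 6 = ((1433 : ℕ) : ℚ) / ((74 : ℕ) : ℚ) := by
  rw [conv, c0, c1, c2, c3, c4, c5, z6]; norm_num
lemma v7 : conv 375 7 = ((4086 : ℕ) : ℚ) / ((211 : ℕ) : ℚ) := by
  rw [conv, c0, c1, c2, c3, c4, c5, c6, z7]; norm_num
lemma v8 : conv 375 8 = ((5519 : ℕ) : ℚ) / ((285 : ℕ) : ℚ) := by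
  rw [conv, c0, c1, c2, c3, c4, c5, c6, c7, z8]; norm_num
lemma v9 : conv 375 9 = ((15124 : ℕ) : ℚ) / ((781 : ℕ) : ℚ) := by
  rw [conv, c0, c1, c2, c3, c4, c5, c6, c7, c8, z9]; norm_num

lemma o1 : orbit 375 (conv 375 3) 1 = ((155 : ℕ) : ℚ) / ((8 : ℕ) : ℚ) := by
  rw [v3]; simp [orbit]
lemma o2 : orbit 375 (conv 375 3) 2 = ((9605 : ℕ) : ℚ) / ((496 : ℕ) : ℚ) := by
  rw [v3]; simp only [orbit, Nat.add_one_sub_one, Nat.reduceSub, Function.iterate_succ, Function.iterate_zero, Function.comp, id, f]; norm_num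
lemma o3 : orbit 375 (conv 375 3) 3 = ((595355 : ℕ) : ℚ) / ((30744 : ℕ) : ℚ) := by
  rw [v3]; simp only [orbit, Nat.add_one_sub_one, Nat.reduceSub, Function.iterate_succ, Function.iterate_zero, Function.comp, id, f]; norm_num
lemma o4 : orbit 375 (conv 375 3) 4 = ((36902405 : ℕ) : ℚ) / ((1905632 : ℕ) : ℚ) := by
  rw [v3]; simp only [orbit, Nat.add_one_sub_one, Nat.reduceSub, Function.iterate_succ, Function.iterate_zero, Function.comp, id, f]; norm_num
lemma o5 : orbit 375 (conv 375 3) 5 = ((457470751 : ℕ) : ℚ) / ((23623688 : ℕ) : ℚ) := by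
  rw [v3]; simp only [orbit, Nat.add_one_sub_one, Nat.reduceSub, Function.iterate_succ, Function.iterate_zero, Function.comp, id, f]; norm_num

/-- **Disproof of Q1.** There is a positive non-square integer `k` such that, if `i` is the least
index of a convergent `d` of `√k` with `R(k, d) ∈ ℤ`, `j` is the least index of a Pellian convergent
and `n ≥ 1` is the least exponent for which `f_d^n(∞)` is Pellian, then `f_d^n(∞)` is not the
`j`-th convergent. -/
theorem result : ∃ k : ℕ, 0 < k ∧ ¬ IsSquare k ∧ ∃ i j n : ℕ,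
    IsLeast {i : ℕ | ∃ z : ℤ, R k (conv k i) = z} i ∧
    IsLeast {j : ℕ | Pellian k (conv k j)} j ∧
    IsLeast {n : ℕ | 1 ≤ n ∧ Pellian k (orbit k (conv k i) n)} n ∧
    orbit k (conv k i) n ≠ conv k j := by
  refine ⟨375, by norm_num, ?_, 3, 9, 5, ⟨?_, ?_⟩, ⟨?_, ?_⟩, ⟨⟨by norm_num, ?_⟩, ?_⟩, ?_⟩
  · rintro ⟨r, hr⟩
    have h1 : r < 20 := by nlinarith
    have h2 : 19 < r := by nlinarith
    omega
  · refine ⟨-3844, ?_⟩
    rw [v3, R]; norm_num
  · rintro i ⟨z, hz⟩
    by_contra hlt
    push Not at hlt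
    interval_cases i
    · rw [v0, R] at hz
      norm_num at hz
      have h : (722 : ℚ) = 7 * z := by linarith
      have h' : (722 : ℤ) = 7 * z := by exact_mod_cast h
      omega
    · rw [v1, R] at hz
      norm_num at hz
      have h : (-2028 : ℚ) = 7 * z := by linarith
      have h' : (-2028 : ℤ) = 7 * z := by exact_mod_cast h
      omega
    · rw [v2, R] at hz
      norm_num at hz
      have h : (13456 : ℚ) = 11 * z := by linarith
      have h' : (13456 : ℤ) = 11 * z := by exact_mod_cast h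
      omega
  · change Pellian 375 (conv 375 9)
    rw [v9, pellian_iff (by norm_num) (by norm_num) (by norm_num)]
    norm_num
  · intro j hj
    by_contra hlt
    push Not at hlt
    change Pellian 375 (conv 375 j) at hj
    interval_cases j
    · rw [v0, pellian_iff (by norm_num) (by norm_num) (by norm_num)] at hj; norm_num at hj
    · rw [v1, pellian_iff (by norm_num) (by norm_num) (by norm_num)] at hj; norm_num at hj
    · rw [v2, pellian_iff (by norm_num) (by norm_num) (by norm_num)] at hj; norm_num at hj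
    · rw [v3, pellian_iff (by norm_num) (by norm_num) (by norm_num)] at hj; norm_num at hj
    · rw [v4, pellian_iff (by norm_num) (by norm_num) (by norm_num)] at hj; norm_num at hj
    · rw [v5, pellian_iff (by norm_num) (by norm_num) (by norm_num)] at hj; norm_num at hj
    · rw [v6, pellian_iff (by norm_num) (by norm_num) (by norm_num)] at hj; norm_num at hj
    · rw [v7, pellian_iff (by norm_num) (by norm_num) (by norm_num)] at hj; norm_num at hj
    · rw [v8, pellian_iff (by norm_num) (by norm_num) (by norm_num)] at hj; norm_num at hj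
  · rw [o5, pellian_iff (by norm_num) (by norm_num) (by norm_num)]
    norm_num
  · rintro n ⟨hn1, hn⟩
    by_contra hlt
    push Not at hlt
    interval_cases n
    · rw [o1, pellian_iff (by norm_num) (by norm_num) (by norm_num)] at hn; norm_num at hn
    · rw [o2, pellian_iff (by norm_num) (by norm_num) (by norm_num)] at hn; norm_num at hn
    · rw [o3, pellian_iff (by norm_num) (by norm_num) (by norm_num)] at hn; norm_num at hn
    · rw [o4, pellian_iff (by norm_num) (by norm_num) (by norm_num)] at hn; norm_num at hn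
  · rw [o5, v9]; norm_num

end Pool.Agent.Results.MP_c624c9_nt.Disproof375
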